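import Pool.Agent.helper32.DF.I2

/-!
# `|m (12 M - D)|` has no base point in the interior of `A_g`

For every `g ≥ 1` and every point `τ` of Siegel's upper half space there are `m ≥ 1` and a Siegel
modular form `f` of weight `12 m` for `Sp_2g(ℤ)` which vanishes to order at least `m` along the
boundary divisor `D` of the perfect cone compactification, with `f τ ≠ 0`.

`f` is a section of `m (12 M - D)`: `D` is irreducible, and the order of `f` along `D` at the cusp of the
primitive vector `v` is at least `m` iff `f (τ + i l v vᵀ) = O(exp (-2π m l))` as `l → ∞` (the
Fourier–Jacobi expansion starts with index `≥ m`).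

Sketch.  `f` is a power sum of products of powers of theta constants `θ[x](τ)`, `x` in a set `S` of
`N`-division points, `N = 2^s`, over all good sets `S` (mean of `dist(ℓ_w(x), ℤ)²` at least `1/12` for
all `w`).  For a given `τ` a good set with all `θ[x](τ) ≠ 0` is found as follows.  If the theta divisor
`Θ` of `τ` contains no translate of a rational hyperplane then `Θ` has `o(N^(2g-2))` points of order `N`
(covering argument with a ball lemma, null sets of multiplicity jumps, and counting of integer points in
tangent spaces), and the complement is good.  If it contains one then Jensen's formula on the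
orthogonal complex line shows that the lattice splits off a unimodular plane, i.e. `τ` is equivalent to
`τ_1 ⊕ τ'`; for the elliptic curve the set of all `N`-division points except the odd point of order two
is good (with equality), and products of good sets are good.
-/

set_option autoImplicit false

namespace Pool.Agent.Results.MP_df63b8_ag.InteriorFree

/-- For every `g ≥ 1` and every `τ` in Siegel's upper half space `H_g` there are `m ≥ 1` and a Siegel
modular form `f` of weight `12 m` for `Sp_2g(ℤ)`, vanishing to order at least `m` along the boundary
divisor, with `f τ ≠ 0`. -/
theorem result (g : ℕ) (hg : 1 ≤ g) (τ : Matrix (Fin g) (Fin g) ℂ) (hτ : τ ∈ DF.Hg (Fin g)) :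
    ∃ m : ℕ, 1 ≤ m ∧ ∃ f : Matrix (Fin g) (Fin g) ℂ → ℂ,
      DF.IsSection g (12 * m) m f ∧ f τ ≠ 0 :=
  DF.result g hg τ hτ

end Pool.Agent.Results.MP_df63b8_ag.InteriorFree
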